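import Pool.Agent.P8H30.MX.Stm

set_option autoImplicit false

/-!
# Project MX, packages BLK and HFB
-/

open Matrix PowerSeries

namespace Pool.Agent.P8H75.MX

open Pool.Agent.Y119.HY
open Pool.Agent.Y119.HZ (Hp)
open Pool.Agent.P8H30.MX

lemma aq_mul (s n : ℕ) (Q : Polynomial ℚ) (k : ℕ) :
    aq (s + n) (Polynomial.X ^ s * Q) k * kx k ^ s = (X : ℚ⟦X⟧) ^ s * aq n Q k := by
  induction k with
  | zero => unfold aq kx; simp
  | succ k ih =>
    have h1 := kx_succ_mul_inv k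
    have e1 : aq (s + n) (Polynomial.X ^ s * Q) (k + 1) = aq (s + n) (Polynomial.X ^ s * Q) k *
        (Polynomial.aeval (kx k) (Polynomial.X ^ s * Q) * ((kx (k + 1))⁻¹) ^ (s + n)) := by
      unfold aq
      rw [Finset.prod_range_succ]
    have e2 : aq n Q (k + 1) = aq n Q k *
        (Polynomial.aeval (kx k) Q * ((kx (k + 1))⁻¹) ^ n) := by
      unfold aq
      rw [Finset.prod_range_succ]
    rw [e1, e2, map_mul, map_pow, Polynomial.aeval_X, pow_add]
    calc aq (s + n) (Polynomial.X ^ s * Q) k * (kx k ^ s * Polynomial.aeval (kx k) Q *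
          ((kx (k + 1))⁻¹ ^ s * (kx (k + 1))⁻¹ ^ n)) * kx (k + 1) ^ s =
        (aq (s + n) (Polynomial.X ^ s * Q) k * kx k ^ s) * (Polynomial.aeval (kx k) Q *
          (kx (k + 1))⁻¹ ^ n) * (kx (k + 1) * (kx (k + 1))⁻¹) ^ s := by ring
      _ = _ := by rw [ih, h1, one_pow, mul_one]; ring

lemma aq_succ (s n : ℕ) (Q : Polynomial ℚ) (k : ℕ) (i : ℕ) :
    kx (k + 1) ^ i * aq (s + n) (Polynomial.X ^ s * Q) (k + 1) =
      (X : ℚ⟦X⟧) ^ s * (kx (k + 1) ^ i * (kx (k + 1))⁻¹ ^ s * aq n Q (k + 1)) := by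
  have h1 := kx_succ_mul_inv k
  have h2 := aq_mul s n Q (k + 1)
  calc kx (k + 1) ^ i * aq (s + n) (Polynomial.X ^ s * Q) (k + 1) =
        kx (k + 1) ^ i * aq (s + n) (Polynomial.X ^ s * Q) (k + 1) *
          (kx (k + 1) * (kx (k + 1))⁻¹) ^ s := by rw [h1, one_pow, mul_one]
    _ = kx (k + 1) ^ i * (kx (k + 1))⁻¹ ^ s *
        (aq (s + n) (Polynomial.X ^ s * Q) (k + 1) * kx (k + 1) ^ s) := by ring
    _ = _ := by rw [h2]; ring

/-- the coefficients: columns with small index -/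
lemma hq_left (s n : ℕ) (Q : Polynomial ℚ) (k i j : ℕ) (hj : j < s) :
    hq (s + n) (Polynomial.X ^ s * Q) (k + 1) i j = 0 := by
  unfold hq
  rw [aq_succ, PowerSeries.coeff_X_pow_mul', if_neg (by omega)]

lemma hq_right (s n : ℕ) (Q : Polynomial ℚ) (k i j : ℕ) :
    hq (s + n) (Polynomial.X ^ s * Q) (k + 1) i (s + j) =
      PowerSeries.coeff j (kx (k + 1) ^ i * (kx (k + 1))⁻¹ ^ s * aq n Q (k + 1)) := by
  unfold hq
  rw [aq_succ, PowerSeries.coeff_X_pow_mul', if_pos (by omega), Nat.add_sub_cancel_left]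

lemma kx_le (k i s : ℕ) (h : i ≤ s) : kx (k + 1) ^ i * (kx (k + 1))⁻¹ ^ s = (kx (k + 1))⁻¹ ^ (s - i) := by
  have h1 := kx_succ_mul_inv k
  obtain ⟨d, rfl⟩ := Nat.exists_eq_add_of_le h
  rw [Nat.add_sub_cancel_left, pow_add, ← mul_assoc, ← mul_pow, h1, one_pow, one_mul]

lemma kx_ge (k i s : ℕ) : kx (k + 1) ^ (s + i) * (kx (k + 1))⁻¹ ^ s = kx (k + 1) ^ i := by
  have h1 := kx_succ_mul_inv k
  calc kx (k + 1) ^ (s + i) * (kx (k + 1))⁻¹ ^ s = kx (k + 1) ^ i * (kx (k + 1) * (kx (k + 1))⁻¹) ^ s := by ring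
    _ = _ := by rw [h1, one_pow, mul_one]

lemma hq_zero' (n : ℕ) (Q : Polynomial ℚ) (i j : ℕ) : hq n Q 0 i j = if i = j then 1 else 0 := by
  unfold hq aq kx
  simp only [Finset.range_zero, Finset.prod_empty, mul_one, Nat.cast_zero, map_zero, zero_add]
  rw [PowerSeries.coeff_X_pow]
  by_cases h : i = j
  · rw [if_pos h, if_pos h.symm]
  · rw [if_neg h, if_neg fun h' => h h'.symm]

lemma coeff_one_mat {s : ℕ} (i j : Fin s) (k : ℕ) :
    PowerSeries.coeff k ((1 : Matrix (Fin s) (Fin s) ℚ⟦X⟧) i j) = if k = 0 ∧ (i : ℕ) = j then 1 else 0 := by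
  rw [Matrix.one_apply]
  by_cases h : i = j
  · rw [if_pos h, PowerSeries.coeff_one]
    simp [h]
  · rw [if_neg h, map_zero, if_neg]
    rintro ⟨-, h'⟩
    exact h (Fin.ext h')

theorem blk : S_BLK := by
  intro s n Q
  ext i j k
  change PowerSeries.coeff k (PowerSeries.mk fun k => hq (s + n) (Polynomial.X ^ s * Q) k i j) = _
  rw [PowerSeries.coeff_mk]
  refine Fin.addCases (fun i => ?_) (fun i => ?_) i <;> refine Fin.addCases (fun j => ?_) (fun j => ?_) j
  · rw [bl_castAdd, coeff_one_mat]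
    rcases k with _ | k
    · rw [hq_zero']; simp
    · rw [hq_left _ _ _ _ _ _ (by simp)]; simp
  · rw [bl_right]
    change _ = PowerSeries.coeff k (PowerSeries.mk fun k =>
      if k = 0 then 0 else PowerSeries.coeff (j : ℕ) (((kx k)⁻¹) ^ (s - (i : ℕ)) * aq n Q k))
    rw [PowerSeries.coeff_mk]
    rcases k with _ | k
    · rw [hq_zero', if_pos rfl, if_neg]
      simp only [Fin.val_castAdd, Fin.val_natAdd]
      omega
    · rw [if_neg (Nat.succ_ne_zero k)]
      simp only [Fin.val_castAdd, Fin.val_natAdd]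
      rw [hq_right, kx_le _ _ _ i.2.le]
  · rw [bl_left, map_zero]
    rcases k with _ | k
    · rw [hq_zero', if_neg]
      simp only [Fin.val_castAdd, Fin.val_natAdd]
      omega
    · rw [hq_left _ _ _ _ _ _ (by simp)]
  · rw [bl_natAdd]
    change _ = PowerSeries.coeff k (PowerSeries.mk fun k => hq n Q k i j)
    rw [PowerSeries.coeff_mk]
    rcases k with _ | k
    · rw [hq_zero', hq_zero']
      simp
    · simp only [Fin.val_natAdd]
      rw [hq_right, kx_ge]
      rfl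

theorem hfb : S_HFB := by
  intro s n Q z
  refine ⟨Matrix.of fun i j => Hf (Hc (s + n) (Polynomial.X ^ s * Q)) z (Fin.castAdd n i) (Fin.natAdd s j), ?_⟩
  ext i j
  refine Fin.addCases (fun i => ?_) (fun i => ?_) i <;> refine Fin.addCases (fun j => ?_) (fun j => ?_) j
  · rw [bl_castAdd]
    change Pool.Agent.Y119.HY.ps (fun k => ((hq (s + n) (Polynomial.X ^ s * Q) k (Fin.castAdd n i : ℕ)
      (Fin.castAdd n j : ℕ) : ℚ) : ℂ)) z = _
    unfold Pool.Agent.Y119.HY.ps
    rw [tsum_eq_single 0]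
    · beta_reduce
      rw [hq_zero', Matrix.one_apply]
      by_cases h : i = j
      · simp [h]
      · have h' : ¬ ((i : ℕ) = j) := fun e => h (Fin.ext e)
        simp [h, h']
    · intro k hk
      obtain ⟨m, rfl⟩ := Nat.exists_eq_succ_of_ne_zero hk
      beta_reduce
      rw [Nat.succ_eq_add_one, hq_left _ _ _ _ _ _ (by simp)]
      simp
  · rw [bl_right]
    rfl
  · rw [bl_left]
    change Pool.Agent.Y119.HY.ps (fun k => ((hq (s + n) (Polynomial.X ^ s * Q) k (Fin.natAdd s i : ℕ)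
      (Fin.castAdd n j : ℕ) : ℚ) : ℂ)) z = _
    have h0 : (fun k => ((hq (s + n) (Polynomial.X ^ s * Q) k (Fin.natAdd s i : ℕ)
      (Fin.castAdd n j : ℕ) : ℚ) : ℂ)) = fun _ => 0 := by
      funext k
      rcases k with _ | k
      · rw [hq_zero', if_neg]
        · simp
        simp only [Fin.val_castAdd, Fin.val_natAdd]
        omega
      · rw [hq_left _ _ _ _ _ _ (by simp)]
        simp
    rw [h0]
    unfold Pool.Agent.Y119.HY.ps
    simp
  · rw [bl_natAdd]
    change Pool.Agent.Y119.HY.ps (fun k => ((hq (s + n) (Polynomial.X ^ s * Q) k (Fin.natAdd s i : ℕ)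
      (Fin.natAdd s j : ℕ) : ℚ) : ℂ)) z = Pool.Agent.Y119.HY.ps (fun k => ((hq n Q k i j : ℚ) : ℂ)) z
    congr 1
    funext k
    rcases k with _ | k
    · rw [hq_zero', hq_zero']
      simp
    · simp only [Fin.val_natAdd]
      rw [hq_right, kx_ge]
      rfl

end Pool.Agent.P8H75.MX
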