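import Pool.Agent.P8H30.MX.Stm

set_option autoImplicit false

/-!
# Project MX, packages SPG and GEN
-/

open Matrix

namespace Pool.Agent.P8H75.MX

open Pool.Agent.Y119.HY
open Pool.Agent.P8H30.MX

theorem spg : S_SPG := by
  intro n J S hJ hdet htv g hg
  set ω : (Fin n → ℂ) →ₗ[ℂ] (Fin n → ℂ) →ₗ[ℂ] ℂ := Matrix.toLinearMap₂' ℂ J with hω
  have hωa : ∀ u v, ω u v = om J u v := by
    intro u v
    rw [hω, Matrix.toLinearMap₂'_apply']
    rfl
  have h0 : ∀ v, ω v v = 0 := fun v => by rw [hωa, om_self hJ]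
  have hnd : ∀ u, (∀ v, ω u v = 0) → u = 0 := by
    intro u hu
    have h1 : ∀ w : Fin n → ℂ, u ⬝ᵥ w = 0 := by
      intro w
      have h2 := hu (J⁻¹ *ᵥ w)
      rw [hωa] at h2
      unfold om at h2
      rw [mulVec_mulVec, mul_nonsing_inv _ (Ne.isUnit hdet), one_mulVec] at h2
      exact h2
    funext i
    have := h1 (Pi.single i 1)
    rwa [dotProduct_single_one] at this
  have hpres : ∀ u v, ω (Matrix.toLin' g u) (Matrix.toLin' g v) = ω u v := by
    intro u v
    rw [hωa, hωa, toLin'_apply, toLin'_apply]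
    unfold om
    rw [mulVec_mulVec, ← vecMul_transpose, ← dotProduct_mulVec, mulVec_mulVec, ← Matrix.mul_assoc, hg]
  have hmem := Pool.Agent.W948.ZC.TR.aux ℂ _ (Fin n → ℂ) ω rfl h0 hnd (Matrix.toLin' g) hpres
  have key : ∀ T ∈ Pool.Agent.W948.ZC.TR.G ω, LinearMap.toMatrix' T ∈ S := by
    intro T hT
    unfold Pool.Agent.W948.ZC.TR.G at hT
    induction hT using Submonoid.closure_induction with
    | mem T h =>
      obtain ⟨c, u, rfl⟩ := h
      have h1 : LinearMap.toMatrix' (1 + c • (ω u).smulRight u) = tv J u c := by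
        apply (Matrix.toLin'.injective)
        rw [toLin'_toMatrix']
        ext x i
        have h2 : (Matrix.toLin' (tv J u c)) (Pi.single x 1) = tv J u c *ᵥ (Pi.single x 1) := rfl
        rw [LinearMap.comp_apply, LinearMap.comp_apply, LinearMap.single_apply, h2, tv_mulVec, ← hωa]
        simp [LinearMap.add_apply, mul_assoc]
      rw [h1]
      exact htv _ c
    | one =>
      have : LinearMap.toMatrix' (1 : Module.End ℂ (Fin n → ℂ)) = 1 := LinearMap.toMatrix'_id
      rw [this]
      exact one_mem _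
    | mul A B _ _ hA hB =>
      have : LinearMap.toMatrix' (A * B) = LinearMap.toMatrix' A * LinearMap.toMatrix' B :=
        LinearMap.toMatrix'_mul A B
      rw [this]
      exact mul_mem hA hB
  have := key _ hmem
  rwa [LinearMap.toMatrix'_toLin'] at this

lemma tv_bl {s n : ℕ} (J : Matrix (Fin n) (Fin n) ℂ) (y : Fin s → ℂ) (w : Fin n → ℂ) (c : ℂ) :
    tv (bl (0 : Matrix (Fin s) (Fin s) ℂ) 0 J) (Fin.append y w) c =
      bl 1 (c • vecMulVec y (w ᵥ* J)) (tv J w c) := by
  have h1 : ∀ j : Fin s, (Fin.append y w ᵥ* bl (0 : Matrix (Fin s) (Fin s) ℂ) 0 J) (Fin.castAdd n j) = 0 := by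
    intro j
    simp only [Matrix.vecMul, dotProduct]
    rw [Fin.sum_univ_add]
    simp [bl_castAdd, bl_left]
  have h2 : ∀ j : Fin n, (Fin.append y w ᵥ* bl (0 : Matrix (Fin s) (Fin s) ℂ) 0 J) (Fin.natAdd s j) =
      (w ᵥ* J) j := by
    intro j
    simp only [Matrix.vecMul, dotProduct]
    rw [Fin.sum_univ_add]
    simp [bl_right, bl_natAdd]
  ext i j
  unfold tv
  refine Fin.addCases (fun i => ?_) (fun i => ?_) i <;> refine Fin.addCases (fun j => ?_) (fun j => ?_) j
  · rw [bl_castAdd, Matrix.add_apply, Matrix.smul_apply, vecMulVec_apply, h1, Matrix.one_apply, Matrix.one_apply]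
    simp
  · rw [bl_right, Matrix.add_apply, Matrix.smul_apply, vecMulVec_apply, h2, Matrix.one_apply, Fin.append_left,
      Matrix.smul_apply, vecMulVec_apply, if_neg, zero_add]
    intro e
    have := congrArg Fin.val e
    simp at this
    omega
  · rw [bl_left, Matrix.add_apply, Matrix.smul_apply, vecMulVec_apply, h1, Matrix.one_apply, if_neg]
    · simp
    intro e
    have := congrArg Fin.val e
    simp at this
    omega
  · rw [bl_natAdd, Matrix.add_apply, Matrix.smul_apply, vecMulVec_apply, h2, Matrix.one_apply, Fin.append_right,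
      Matrix.add_apply, Matrix.smul_apply, vecMulVec_apply, Matrix.one_apply]
    simp

theorem gen : S_SPG → S_GEN := by
  intro hspg s n J S hJ hdet htv b g hg
  -- (1)
  have h1 : ∀ g : Matrix (Fin n) (Fin n) ℂ, g.transpose * J * g = J → bl 1 0 g ∈ S := by
    let φ : Matrix (Fin n) (Fin n) ℂ →* Matrix (Fin (s + n)) (Fin (s + n)) ℂ :=
      { toFun := fun g => bl 1 0 g
        map_one' := bl_one
        map_mul' := fun g g' => by rw [bl_mul]; simp }
    intro g hg
    have h2 := hspg n J (S.comap φ) hJ hdet (fun w c => ?_) g hg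
    · exact h2
    · rw [Submonoid.mem_comap]
      have h3 := htv (Fin.append (0 : Fin s → ℂ) w) c
      rw [tv_bl, zero_vecMulVec, smul_zero] at h3
      exact h3
  -- (2)
  have h2 : ∀ (y : Fin s → ℂ) (ψ : Fin n → ℂ), bl 1 (vecMulVec y ψ) 1 ∈ S := by
    intro y ψ
    set w := ψ ᵥ* J⁻¹ with hw
    have hwJ : w ᵥ* J = ψ := by
      rw [hw, vecMul_vecMul, nonsing_inv_mul _ (Ne.isUnit hdet), vecMul_one]
    have h3 := mul_mem (htv (Fin.append y w) 1) (h1 (tv J w (-1)) (tv_isom hJ w (-1)))
    rw [tv_bl, bl_mul, one_mul, Matrix.one_mul, zero_add, one_smul, tv_mul_neg hJ, vecMulVec_mul] at h3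
    have h4 : (w ᵥ* J) ᵥ* tv J w (-1) = w ᵥ* J := by
      unfold tv
      rw [vecMul_add, vecMul_one, vecMul_smul, vecMul_vecMulVec, ← om_eq, om_self hJ]
      simp
    rw [h4, hwJ] at h3
    exact h3
  -- (3)
  have h3 : bl 1 b 1 ∈ S := by
    have h4 : ∀ T : Finset (Fin s), bl 1 (∑ i ∈ T, vecMulVec (Pi.single i (1 : ℂ)) (fun j => b i j)) 1 ∈ S := by
      intro T
      induction T using Finset.induction_on with
      | empty => rw [Finset.sum_empty, bl_one]; exact one_mem _
      | insert i T hi ih =>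
        rw [Finset.sum_insert hi]
        have h5 := mul_mem ih (h2 (Pi.single i 1) (fun j => b i j))
        rw [bl_mul, one_mul, Matrix.one_mul, Matrix.mul_one, mul_one] at h5
        exact h5
    have h5 := h4 Finset.univ
    have h6 : (∑ i : Fin s, vecMulVec (Pi.single i (1 : ℂ)) (fun j => b i j)) = b := by
      ext k l
      rw [Matrix.sum_apply, Finset.sum_eq_single k]
      · rw [vecMulVec_apply, Pi.single_eq_same, one_mul]
      · intro i _ hik
        rw [vecMulVec_apply, Pi.single_eq_of_ne hik.symm, zero_mul]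
      · simp
    rw [h6] at h5
    exact h5
  have h4 := mul_mem (h1 g hg) h3
  rw [bl_mul, one_mul, Matrix.one_mul, mul_one, Matrix.zero_mul, add_zero] at h4
  exact h4

end Pool.Agent.P8H75.MX
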